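import Pool.Agent.Q142.LX.Had
set_option autoImplicit false
open Finset
namespace Q142LX

lemma add_rpow_le' {p : ℝ} (hp : 0 < p) {a b : ℝ} (ha : 0 ≤ a) (hb : 0 ≤ b) :
    (a + b) ^ p ≤ 2 ^ p * (a ^ p + b ^ p) := by
  have ha' := Real.rpow_nonneg ha p
  have hb' := Real.rpow_nonneg hb p
  have h2 : (0:ℝ) ≤ 2 ^ p := by positivity
  rcases le_total a b with h | h
  · calc (a + b) ^ p ≤ (2 * b) ^ p := Real.rpow_le_rpow (by linarith) (by linarith) hp.le
      _ = 2 ^ p * b ^ p := Real.mul_rpow (by norm_num) hb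
      _ ≤ _ := mul_le_mul_of_nonneg_left (by linarith) h2
  · calc (a + b) ^ p ≤ (2 * a) ^ p := Real.rpow_le_rpow (by linarith) (by linarith) hp.le
      _ = 2 ^ p * a ^ p := Real.mul_rpow (by norm_num) ha
      _ ≤ _ := mul_le_mul_of_nonneg_left (by linarith) h2

section
variable {X : Type} [NormedAddCommGroup X] [NormedSpace ℝ X]

/-- the `ℓ_p` norm of a sequence in `X` -/
noncomputable def nn (p : ℝ) (y : ℕ → X) : ℝ := (∑' m, ‖y m‖ ^ p) ^ (1 / p)

omit [NormedSpace ℝ X] in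
lemma sub_summable {p : ℝ} (hp : 0 < p) {x y : ℕ → X} (hx : Summable fun m => ‖x m‖ ^ p)
    (hy : Summable fun m => ‖y m‖ ^ p) : Summable fun m => ‖x m - y m‖ ^ p := by
  refine Summable.of_nonneg_of_le (fun m => by positivity) (fun m => ?_)
    ((hx.add hy).mul_left (2 ^ p))
  exact (Real.rpow_le_rpow (norm_nonneg _) (norm_sub_le _ _) hp.le).trans
    (add_rpow_le' hp (norm_nonneg _) (norm_nonneg _))

lemma holder {p : ℝ} (hp : 1 < p) {z y : ℕ → ℝ} (hz : ∀ m, 0 ≤ z m) (hy : ∀ m, 0 ≤ y m)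
    (sz : Summable fun m => z m ^ p) (sy : Summable fun m => y m ^ p) :
    (Summable fun m => z m ^ (p - 1) * y m) ∧
    ∑' m, z m ^ (p - 1) * y m ≤ (∑' m, z m ^ p) ^ ((p - 1) / p) * (∑' m, y m ^ p) ^ (1 / p) := by
  have hc : (Real.conjExponent p).HolderConjugate p := (Real.HolderConjugate.conjExponent hp).symm
  have hp0 : p - 1 ≠ 0 := ne_of_gt (sub_pos.2 hp)
  have e : ∀ m, (z m ^ (p - 1)) ^ (Real.conjExponent p) = z m ^ p := by
    intro m
    rw [← Real.rpow_mul (hz m), Real.conjExponent]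
    congr 1
    field_simp
  have h := Real.summable_and_inner_le_Lp_mul_Lq_tsum_of_nonneg hc
    (f := fun m => z m ^ (p - 1)) (g := y) (fun m => Real.rpow_nonneg (hz m) _) hy
    (by simpa only [e] using sz) sy
  refine ⟨h.1, h.2.trans (le_of_eq ?_)⟩
  simp only [e]
  congr 2
  rw [Real.conjExponent]
  field_simp

/-- The basic duality estimate. -/
lemma beta_ineq {p D : ℝ} (hp : 2 ≤ p) (hD2 : D < 2) {x x' y y' : ℕ → X}
    (sx : Summable fun m => ‖x m‖ ^ p) (sx' : Summable fun m => ‖x' m‖ ^ p)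
    (sy : Summable fun m => ‖y m‖ ^ p) (sy' : Summable fun m => ‖y' m‖ ^ p)
    (hlow : 4 ≤ nn p (fun m => x m - x' m))
    (h1 : nn p (fun m => x m - y m) ≤ D) (h2 : nn p (fun m => y' m - x' m) ≤ D)
    (ψ : ℕ → (X →L[ℝ] ℝ)) (hψ : ∀ m, ‖ψ m‖ ≤ 1) (hψ' : ∀ m, ψ m (x m - x' m) = ‖x m - x' m‖) :
    (4:ℝ) ^ (p - 1) * (4 - 2 * D) ≤
      ∑' m, ‖x m - x' m‖ ^ (p - 1) * ψ m (y m - y' m) := by
  have hp0 : 0 < p := by linarith
  have hp1 : 1 < p := by linarith
  have sz := sub_summable hp0 sx sx'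
  set z : ℕ → ℝ := fun m => ‖x m - x' m‖ with hzdef
  set Zp : ℝ := ∑' m, z m ^ p with hZp
  have hZ0 : 0 ≤ Zp := tsum_nonneg fun m => by positivity
  -- general bound
  have gen : ∀ w : ℕ → X, (Summable fun m => ‖w m‖ ^ p) →
      (Summable fun m => z m ^ (p - 1) * ψ m (w m)) ∧
      ∑' m, z m ^ (p - 1) * ψ m (w m) ≤ Zp ^ ((p - 1) / p) * nn p w := by
    intro w sw
    obtain ⟨h3, h4⟩ := holder hp1 (z := z) (y := fun m => ‖w m‖) (fun m => norm_nonneg _)
      (fun m => norm_nonneg _) sz sw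
    have hb : ∀ m, ‖z m ^ (p - 1) * ψ m (w m)‖ ≤ z m ^ (p - 1) * ‖w m‖ := by
      intro m
      rw [norm_mul, Real.norm_eq_abs, abs_of_nonneg (Real.rpow_nonneg (norm_nonneg _) _)]
      refine mul_le_mul_of_nonneg_left ?_ (Real.rpow_nonneg (norm_nonneg _) _)
      calc ‖ψ m (w m)‖ ≤ ‖ψ m‖ * ‖w m‖ := (ψ m).le_opNorm _
        _ ≤ 1 * ‖w m‖ := mul_le_mul_of_nonneg_right (hψ m) (norm_nonneg _)
        _ = ‖w m‖ := one_mul _
    have h5 : Summable fun m => z m ^ (p - 1) * ψ m (w m) := Summable.of_norm_bounded h3 hb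
    refine ⟨h5, le_trans (h5.tsum_le_tsum (fun m => ?_) h3) h4⟩
    exact (Real.le_norm_self _).trans (hb m)
  have s1 := sub_summable hp0 sx sy
  have s2 := sub_summable hp0 sy' sx'
  have s3 := sub_summable hp0 sy sy'
  obtain ⟨g1, b1⟩ := gen _ s1
  obtain ⟨g2, b2⟩ := gen _ s2
  obtain ⟨g3, -⟩ := gen _ s3
  obtain ⟨g4, -⟩ := gen _ sz
  have e1 : ∑' m, z m ^ (p - 1) * ψ m (x m - x' m) = Zp := by
    refine tsum_congr fun m => ?_
    rw [hψ']
    change z m ^ (p - 1) * z m = z m ^ p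
    rcases (norm_nonneg (x m - x' m)).eq_or_lt with h | h
    · have : z m = 0 := h.symm
      rw [this, Real.zero_rpow hp0.ne', mul_zero]
    · have h' : 0 < z m := h
      rw [← Real.rpow_add_one h'.ne']
      congr 1; ring
  have e2 : ∑' m, z m ^ (p - 1) * ψ m (y m - y' m) =
      ∑' m, z m ^ (p - 1) * ψ m (x m - x' m) - ∑' m, z m ^ (p - 1) * ψ m (x m - y m) -
        ∑' m, z m ^ (p - 1) * ψ m (y' m - x' m) := by
    rw [← g4.tsum_sub g1, ← (g4.sub g1).tsum_sub g2]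
    refine tsum_congr fun m => ?_
    simp only [map_sub]; ring
  rw [e2, e1]
  have hZsplit : Zp = Zp ^ ((p - 1) / p) * Zp ^ (1 / p) := by
    rw [← Real.rpow_add_of_nonneg hZ0 (by positivity) (by positivity)]
    have : (p - 1) / p + 1 / p = 1 := by field_simp; ring
    rw [this, Real.rpow_one]
  have hZ4 : 4 ≤ Zp ^ (1 / p) := hlow
  have hZ5 : (4:ℝ) ^ (p - 1) ≤ Zp ^ ((p - 1) / p) := by
    have h6 : Zp ^ ((p - 1) / p) = (Zp ^ (1 / p)) ^ (p - 1) := by
      rw [← Real.rpow_mul hZ0]; congr 1; ring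
    rw [h6]
    exact Real.rpow_le_rpow (by norm_num) hZ4 (by linarith)
  have hZ6 : 0 ≤ Zp ^ ((p - 1) / p) := Real.rpow_nonneg hZ0 _
  have b1' : ∑' m, z m ^ (p - 1) * ψ m (x m - y m) ≤ Zp ^ ((p - 1) / p) * D :=
    b1.trans (mul_le_mul_of_nonneg_left h1 hZ6)
  have b2' : ∑' m, z m ^ (p - 1) * ψ m (y' m - x' m) ≤ Zp ^ ((p - 1) / p) * D :=
    b2.trans (mul_le_mul_of_nonneg_left h2 hZ6)
  calc (4:ℝ) ^ (p - 1) * (4 - 2 * D) ≤ Zp ^ ((p - 1) / p) * (Zp ^ (1 / p) - 2 * D) :=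
        mul_le_mul hZ5 (by linarith) (by linarith) hZ6
    _ = Zp - Zp ^ ((p - 1) / p) * D - Zp ^ ((p - 1) / p) * D := by
        nth_rewrite 3 [hZsplit]; ring
    _ ≤ _ := by linarith

end

section
variable {V : Type} [Fintype V] [DecidableEq V] [Nonempty V] (H : V → V → ℝ)
  (hH : ∀ i j, H i j = 1 ∨ H i j = -1)
  (horth : ∀ i l, ∑ j, H i j * H l j = if i = l then (Fintype.card V : ℝ) else 0)
variable {X : Type} [NormedAddCommGroup X] [NormedSpace ℝ X] [FiniteDimensional ℝ X]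

omit [DecidableEq V] in
lemma mean_le {p : ℝ} (hp : 2 ≤ p) (x : V → ℝ) (hx : ∀ j, 0 ≤ x j) :
    (∑ j, x j ≤ Fintype.card V * ((1 / (Fintype.card V : ℝ)) * ∑ j, x j ^ p) ^ (1 / p)) ∧
    (∑ j, x j ^ 2 ≤
      Fintype.card V * (((1 / (Fintype.card V : ℝ)) * ∑ j, x j ^ p) ^ (1 / p)) ^ 2) := by
  have hN : (0:ℝ) < Fintype.card V := by exact_mod_cast Fintype.card_pos
  set N : ℝ := (Fintype.card V : ℝ)
  have hp0 : 0 < p := by linarith
  have hw : ∑ _j : V, (1 / N) = 1 := by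
    rw [Finset.sum_const, Finset.card_univ, nsmul_eq_mul]
    field_simp
    rfl
  have hs0 : 0 ≤ ∑ j, x j ^ p := Finset.sum_nonneg fun j _ => Real.rpow_nonneg (hx j) _
  have hv0 : 0 ≤ (1 / N) * ∑ j, x j ^ p := by positivity
  have h1 := Real.rpow_arith_mean_le_arith_mean_rpow Finset.univ (fun _ : V => 1 / N) x
    (fun _ _ => by positivity) hw (fun j _ => hx j) (p := p) (by linarith)
  have h2 := Real.rpow_arith_mean_le_arith_mean_rpow Finset.univ (fun _ : V => 1 / N)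
    (fun j => x j ^ 2) (fun _ _ => by positivity) hw (fun j _ => sq_nonneg _) (p := p / 2)
    (by linarith)
  have e2 : ∀ j, (x j ^ 2) ^ (p / 2) = x j ^ p := by
    intro j
    rw [← Real.rpow_natCast, ← Real.rpow_mul (hx j)]
    congr 1; push_cast; ring
  simp only [e2] at h2
  rw [← Finset.mul_sum, ← Finset.mul_sum] at h1 h2
  constructor
  · have h3 : (1 / N) * ∑ j, x j ≤ ((1 / N) * ∑ j, x j ^ p) ^ (1 / p) := by
      have h4 : 0 ≤ (1 / N) * ∑ j, x j := by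
        have := Finset.sum_nonneg fun j (_ : j ∈ Finset.univ) => hx j
        positivity
      calc (1 / N) * ∑ j, x j = (((1 / N) * ∑ j, x j) ^ p) ^ (1 / p) := by
            rw [← Real.rpow_mul h4]
            rw [mul_one_div_cancel hp0.ne', Real.rpow_one]
        _ ≤ _ := Real.rpow_le_rpow (Real.rpow_nonneg h4 _) h1 (by positivity)
    calc ∑ j, x j = N * ((1 / N) * ∑ j, x j) := by field_simp
      _ ≤ _ := mul_le_mul_of_nonneg_left h3 hN.le
  · have h3 : (1 / N) * ∑ j, x j ^ 2 ≤ (((1 / N) * ∑ j, x j ^ p) ^ (1 / p)) ^ 2 := by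
      have h4 : 0 ≤ (1 / N) * ∑ j, x j ^ 2 := by
        have := Finset.sum_nonneg fun j (_ : j ∈ Finset.univ) => sq_nonneg (x j)
        positivity
      calc (1 / N) * ∑ j, x j ^ 2 = (((1 / N) * ∑ j, x j ^ 2) ^ (p / 2)) ^ (2 / p) := by
            rw [← Real.rpow_mul h4]
            have : p / 2 * (2 / p) = 1 := by field_simp
            rw [this, Real.rpow_one]
        _ ≤ ((1 / N) * ∑ j, x j ^ p) ^ (2 / p) :=
            Real.rpow_le_rpow (Real.rpow_nonneg h4 _) h2 (by positivity)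
        _ = _ := by
            rw [← Real.rpow_natCast, ← Real.rpow_mul hv0]
            congr 1; push_cast; ring
    calc ∑ j, x j ^ 2 = N * ((1 / N) * ∑ j, x j ^ 2) := by field_simp
      _ ≤ _ := mul_le_mul_of_nonneg_left h3 hN.le

include hH horth in
/-- the estimate for one coordinate -/
lemma per_m {p κ : ℝ} (hp : 2 ≤ p) (hκ : 0 < κ) (ψ : V → (X →L[ℝ] ℝ)) (hψ : ∀ i, ‖ψ i‖ ≤ 1)
    (z : V → ℝ) (hz : ∀ i, 0 ≤ z i) (g : V → X) :
    ∑ i, ∑ j, H i j * (z i ^ (p - 1) * ψ i (g j)) ≤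
      (Fintype.card V / κ) * ∑ i, z i ^ p +
      Real.sqrt (Fintype.card V * Module.finrank ℝ X) * κ ^ (p - 1) * ∑ j, ‖g j‖ ^ p := by
  have hN : (0:ℝ) < Fintype.card V := by exact_mod_cast Fintype.card_pos
  set N : ℝ := (Fintype.card V : ℝ) with hNdef
  have hp0 : 0 < p := by linarith
  set v : ℝ := ((1 / N) * ∑ j, ‖g j‖ ^ p) ^ (1 / p) with hv
  have hs0 : 0 ≤ ∑ j, ‖g j‖ ^ p := Finset.sum_nonneg fun j _ => by positivity
  have hin0 : 0 ≤ (1 / N) * ∑ j, ‖g j‖ ^ p := by positivity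
  have hv0 : 0 ≤ v := Real.rpow_nonneg hin0 _
  have hvp : v ^ p = (1 / N) * ∑ j, ‖g j‖ ^ p := by
    rw [hv, ← Real.rpow_mul hin0, one_div_mul_cancel hp0.ne', Real.rpow_one]
  obtain ⟨m1, m2⟩ := mean_le hp (fun j => ‖g j‖) (fun j => norm_nonneg _)
  have m1 : ∑ j, ‖g j‖ ≤ N * v := m1
  have m2 : ∑ j, ‖g j‖ ^ 2 ≤ N * v ^ 2 := m2
  let L : X →ₗ[ℝ] (V → ℝ) :=
    LinearMap.pi fun i => if z i ≤ κ * v then (z i ^ (p - 1)) • (ψ i).toLinearMap else 0
  have hL : ∀ x i, L x i = if z i ≤ κ * v then z i ^ (p - 1) * ψ i x else 0 := by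
    intro x i
    simp only [L, LinearMap.pi_apply]
    split_ifs <;> simp
  have hzp : ∀ i, 0 ≤ z i ^ (p - 1) := fun i => Real.rpow_nonneg (hz i) _
  have hψb : ∀ i x, |ψ i x| ≤ ‖x‖ := fun i x =>
    ((ψ i).le_opNorm x).trans (by
      calc ‖ψ i‖ * ‖x‖ ≤ 1 * ‖x‖ := mul_le_mul_of_nonneg_right (hψ i) (norm_nonneg _)
        _ = ‖x‖ := one_mul _)
  have hHabs : ∀ i j (c : ℝ), H i j * c ≤ |c| := by
    intro i j c
    rcases hH i j with h | h
    · rw [h, one_mul]; exact le_abs_self c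
    · rw [h, neg_one_mul]; exact neg_le_abs c
  -- termwise decomposition
  have dec : ∀ i, ∑ j, H i j * (z i ^ (p - 1) * ψ i (g j)) ≤
      (∑ j, H i j * L (g j) i) + (N / κ) * z i ^ p := by
    intro i
    by_cases hi : z i ≤ κ * v
    · have e : ∑ j, H i j * L (g j) i = ∑ j, H i j * (z i ^ (p - 1) * ψ i (g j)) :=
        Finset.sum_congr rfl fun j _ => by rw [hL, if_pos hi]
      rw [e]
      have : 0 ≤ (N / κ) * z i ^ p := mul_nonneg (by positivity) (Real.rpow_nonneg (hz i) _)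
      linarith
    · have e : ∑ j, H i j * L (g j) i = 0 :=
        Finset.sum_eq_zero fun j _ => by rw [hL, if_neg hi, mul_zero]
      rw [e, zero_add]
      have hi' : κ * v < z i := not_le.1 hi
      have hzi : 0 < z i := lt_of_le_of_lt (by positivity) hi'
      calc ∑ j, H i j * (z i ^ (p - 1) * ψ i (g j))
          ≤ ∑ j, z i ^ (p - 1) * ‖g j‖ := by
            refine Finset.sum_le_sum fun j _ => (hHabs _ _ _).trans ?_
            rw [abs_mul, abs_of_nonneg (hzp i)]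
            exact mul_le_mul_of_nonneg_left (hψb _ _) (hzp i)
        _ = z i ^ (p - 1) * ∑ j, ‖g j‖ := by rw [Finset.mul_sum]
        _ ≤ z i ^ (p - 1) * (N * (z i / κ)) := by
            refine mul_le_mul_of_nonneg_left (m1.trans ?_) (hzp i)
            refine mul_le_mul_of_nonneg_left ?_ hN.le
            rw [le_div_iff₀ hκ]; linarith
        _ = (N / κ) * z i ^ p := by
            have : z i ^ p = z i ^ (p - 1) * z i := by
              rw [← Real.rpow_add_one hzi.ne']; congr 1; ring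
            rw [this]; field_simp
  have small : ∑ i, ∑ j, H i j * L (g j) i ≤
      Real.sqrt (N * Module.finrank ℝ X) * κ ^ (p - 1) * ∑ j, ‖g j‖ ^ p := by
    have h1 := rank_ineq H horth hN.le L g
    have hkv : 0 ≤ (κ * v) ^ (p - 1) := Real.rpow_nonneg (by positivity) _
    have h2 : ∑ i, ∑ j, (L (g j) i) ^ 2 ≤ (N * ((κ * v) ^ (p - 1) * v)) ^ 2 := by
      have h3 : ∀ i j, (L (g j) i) ^ 2 ≤ ((κ * v) ^ (p - 1)) ^ 2 * ‖g j‖ ^ 2 := by
        intro i j
        rw [hL, ← mul_pow]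
        split_ifs with hi
        · apply sq_le_sq'
          · have h5 : |z i ^ (p - 1) * ψ i (g j)| ≤ (κ * v) ^ (p - 1) * ‖g j‖ := by
              rw [abs_mul, abs_of_nonneg (hzp i)]
              exact mul_le_mul (Real.rpow_le_rpow (hz i) hi (by linarith)) (hψb _ _)
                (abs_nonneg _) hkv
            linarith [neg_abs_le (z i ^ (p - 1) * ψ i (g j))]
          · have h5 : |z i ^ (p - 1) * ψ i (g j)| ≤ (κ * v) ^ (p - 1) * ‖g j‖ := by
              rw [abs_mul, abs_of_nonneg (hzp i)]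
              exact mul_le_mul (Real.rpow_le_rpow (hz i) hi (by linarith)) (hψb _ _)
                (abs_nonneg _) hkv
            linarith [le_abs_self (z i ^ (p - 1) * ψ i (g j))]
        · rw [zero_pow two_ne_zero]; positivity
      calc ∑ i, ∑ j, (L (g j) i) ^ 2 ≤ ∑ _i : V, ∑ j, ((κ * v) ^ (p - 1)) ^ 2 * ‖g j‖ ^ 2 :=
            Finset.sum_le_sum fun i _ => Finset.sum_le_sum fun j _ => h3 i j
        _ = N * (((κ * v) ^ (p - 1)) ^ 2 * ∑ j, ‖g j‖ ^ 2) := by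
            rw [Finset.sum_const, Finset.card_univ, nsmul_eq_mul, ← Finset.mul_sum]
        _ ≤ N * (((κ * v) ^ (p - 1)) ^ 2 * (N * v ^ 2)) := by gcongr
        _ = _ := by ring
    have hk0 : (0:ℝ) ≤ N * Module.finrank ℝ X := by positivity
    have h6 : (∑ i, ∑ j, H i j * L (g j) i) ^ 2 ≤
        (Real.sqrt (N * Module.finrank ℝ X) * (N * ((κ * v) ^ (p - 1) * v))) ^ 2 := by
      rw [mul_pow, Real.sq_sqrt hk0]
      exact h1.trans (mul_le_mul_of_nonneg_left h2 hk0)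
    have h7 : ∑ i, ∑ j, H i j * L (g j) i ≤
        Real.sqrt (N * Module.finrank ℝ X) * (N * ((κ * v) ^ (p - 1) * v)) :=
      le_of_sq_le_sq h6 (by positivity)
    refine h7.trans (le_of_eq ?_)
    have h8 : (κ * v) ^ (p - 1) * v = κ ^ (p - 1) * v ^ p := by
      rw [Real.mul_rpow hκ.le hv0]
      rcases hv0.eq_or_lt with h | h
      · rw [← h, Real.zero_rpow hp0.ne']; ring
      · have : v ^ p = v ^ (p - 1) * v := by
          rw [← Real.rpow_add_one h.ne']; congr 1; ring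
        rw [this]; ring
    rw [h8, hvp]
    field_simp
  calc ∑ i, ∑ j, H i j * (z i ^ (p - 1) * ψ i (g j))
      ≤ ∑ i, ((∑ j, H i j * L (g j) i) + (N / κ) * z i ^ p) := Finset.sum_le_sum fun i _ => dec i
    _ = ∑ i, ∑ j, H i j * L (g j) i + (N / κ) * ∑ i, z i ^ p := by
        rw [Finset.sum_add_distrib, Finset.mul_sum]
    _ ≤ _ := by linarith

include hH horth in
/-- The main inequality. -/
theorem core {p D : ℝ} (hp : 2 ≤ p) (hD1 : 1 ≤ D) (hD2 : D < 2) (a a' b b' : V → ℕ → X)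
    (sa : ∀ i, Summable fun m => ‖a i m‖ ^ p) (sa' : ∀ i, Summable fun m => ‖a' i m‖ ^ p)
    (sb : ∀ i, Summable fun m => ‖b i m‖ ^ p) (sb' : ∀ i, Summable fun m => ‖b' i m‖ ^ p)
    (hlow : ∀ i, 4 ≤ nn p (fun m => a i m - a' i m))
    (hup : ∀ i, nn p (fun m => a i m - a' i m) ≤ D * 4)
    (hg : ∀ i, nn p (fun m => b i m - b' i m) ≤ D * 4)
    (h1 : ∀ i j, H i j = 1 → nn p (fun m => a i m - b j m) ≤ D ∧
      nn p (fun m => b' j m - a' i m) ≤ D)
    (h2 : ∀ i j, H i j = -1 → nn p (fun m => a i m - b' j m) ≤ D ∧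
      nn p (fun m => b j m - a' i m) ≤ D) :
    (Fintype.card V : ℝ) ≤ Module.finrank ℝ X * (4 * D ^ p / (2 - D)) ^ (2 * p) := by
  have hN : (0:ℝ) < Fintype.card V := by exact_mod_cast Fintype.card_pos
  have hp0 : 0 < p := by linarith
  have hp1 : 1 < p := by linarith
  have hψ : ∀ (i : V) (m : ℕ), ∃ ψ : X →L[ℝ] ℝ, ‖ψ‖ ≤ 1 ∧ ψ (a i m - a' i m) = ‖a i m - a' i m‖ :=
    fun i m => exists_dual_vector'' ℝ (a i m - a' i m)
  choose ψ hψ1 hψ2 using hψ
  set q0 : ℝ := (4:ℝ) ^ (p - 1) * (4 - 2 * D) with hq0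
  set R : ℝ := (D * 4) ^ p with hR
  have hq0pos : 0 < q0 := mul_pos (Real.rpow_pos_of_pos (by norm_num) _) (by linarith)
  have hRpos : 0 < R := Real.rpow_pos_of_pos (by linarith) _
  set κ : ℝ := 2 * R / q0 with hκdef
  have hκ : 0 < κ := by positivity
  set N : ℝ := (Fintype.card V : ℝ) with hNdef
  set k : ℝ := (Module.finrank ℝ X : ℝ) with hk
  have hk0 : 0 ≤ k := Nat.cast_nonneg _
  -- terms
  have sz : ∀ i, Summable fun m => ‖a i m - a' i m‖ ^ p := fun i => sub_summable hp0 (sa i) (sa' i)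
  have sg : ∀ j, Summable fun m => ‖b j m - b' j m‖ ^ p := fun j => sub_summable hp0 (sb j) (sb' j)
  have sB : ∀ i j, Summable fun m => ‖a i m - a' i m‖ ^ (p - 1) * ψ i m (b j m - b' j m) := by
    intro i j
    refine Summable.of_norm_bounded (holder hp1 (z := fun m => ‖a i m - a' i m‖)
      (y := fun m => ‖b j m - b' j m‖) (fun m => norm_nonneg _) (fun m => norm_nonneg _)
      (sz i) (sg j)).1 fun m => ?_
    rw [norm_mul, Real.norm_eq_abs, abs_of_nonneg (Real.rpow_nonneg (norm_nonneg _) _)]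
    refine mul_le_mul_of_nonneg_left ?_ (Real.rpow_nonneg (norm_nonneg _) _)
    calc ‖ψ i m (b j m - b' j m)‖ ≤ ‖ψ i m‖ * ‖b j m - b' j m‖ := (ψ i m).le_opNorm _
      _ ≤ 1 * ‖b j m - b' j m‖ := mul_le_mul_of_nonneg_right (hψ1 i m) (norm_nonneg _)
      _ = ‖b j m - b' j m‖ := one_mul _
  have hlowB : ∀ i j, q0 ≤ H i j * ∑' m, ‖a i m - a' i m‖ ^ (p - 1) * ψ i m (b j m - b' j m) := by
    intro i j
    rcases hH i j with h | h
    · rw [h, one_mul]
      obtain ⟨h3, h4⟩ := h1 i j h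
      exact beta_ineq hp hD2 (sa i) (sa' i) (sb j) (sb' j) (hlow i) h3 h4 (ψ i) (hψ1 i) (hψ2 i)
    · rw [h, neg_one_mul, ← tsum_neg]
      obtain ⟨h3, h4⟩ := h2 i j h
      have h5 := beta_ineq hp hD2 (sa i) (sa' i) (sb' j) (sb j) (hlow i) h3 h4 (ψ i) (hψ1 i)
        (hψ2 i)
      refine h5.trans (le_of_eq (tsum_congr fun m => ?_))
      rw [← mul_neg, ← map_neg, neg_sub]
  -- summation over the coordinates
  have hsum1 : HasSum (fun m => ∑ i, ∑ j, H i j *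
      (‖a i m - a' i m‖ ^ (p - 1) * ψ i m (b j m - b' j m)))
      (∑ i, ∑ j, H i j * ∑' m, ‖a i m - a' i m‖ ^ (p - 1) * ψ i m (b j m - b' j m)) :=
    hasSum_sum fun i _ => hasSum_sum fun j _ => (sB i j).hasSum.mul_left _
  have hsum2 : HasSum (fun m => (N / κ) * ∑ i, ‖a i m - a' i m‖ ^ p +
      Real.sqrt (N * k) * κ ^ (p - 1) * ∑ j, ‖b j m - b' j m‖ ^ p)
      ((N / κ) * ∑ i, ∑' m, ‖a i m - a' i m‖ ^ p +
      Real.sqrt (N * k) * κ ^ (p - 1) * ∑ j, ∑' m, ‖b j m - b' j m‖ ^ p) :=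
    ((hasSum_sum fun i _ => (sz i).hasSum).mul_left _).add
      ((hasSum_sum fun j _ => (sg j).hasSum).mul_left _)
  have hle := hasSum_le (fun m => per_m H hH horth hp hκ (fun i => ψ i m) (fun i => hψ1 i m)
    (fun i => ‖a i m - a' i m‖) (fun i => norm_nonneg _) (fun j => b j m - b' j m)) hsum1 hsum2
  have hup' : ∀ (y : ℕ → X), nn p y ≤ D * 4 → ∑' m, ‖y m‖ ^ p ≤ R := by
    intro y hy
    have h0 : 0 ≤ ∑' m, ‖y m‖ ^ p := tsum_nonneg fun m => by positivity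
    calc ∑' m, ‖y m‖ ^ p = (nn p y) ^ p := by
          unfold nn
          rw [← Real.rpow_mul h0, one_div_mul_cancel hp0.ne', Real.rpow_one]
      _ ≤ R := Real.rpow_le_rpow (Real.rpow_nonneg h0 _) hy hp0.le
  have hz1 : ∑ i, ∑' m, ‖a i m - a' i m‖ ^ p ≤ N * R := by
    calc _ ≤ ∑ _i : V, R := Finset.sum_le_sum fun i _ => hup' _ (hup i)
      _ = N * R := by rw [Finset.sum_const, Finset.card_univ, nsmul_eq_mul]
  have hg1 : ∑ j, ∑' m, ‖b j m - b' j m‖ ^ p ≤ N * R := by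
    calc _ ≤ ∑ _i : V, R := Finset.sum_le_sum fun i _ => hup' _ (hg i)
      _ = N * R := by rw [Finset.sum_const, Finset.card_univ, nsmul_eq_mul]
  have hlow2 : N * (N * q0) ≤
      ∑ i, ∑ j, H i j * ∑' m, ‖a i m - a' i m‖ ^ (p - 1) * ψ i m (b j m - b' j m) := by
    calc N * (N * q0) = ∑ _i : V, ∑ _j : V, q0 := by
          rw [Finset.sum_const, Finset.sum_const, Finset.card_univ, nsmul_eq_mul, nsmul_eq_mul]
      _ ≤ _ := Finset.sum_le_sum fun i _ => Finset.sum_le_sum fun j _ => hlowB i j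
  have hκp : 0 < κ ^ (p - 1) := Real.rpow_pos_of_pos hκ _
  have hmain : N * (N * q0) ≤ (N / κ) * (N * R) + Real.sqrt (N * k) * κ ^ (p - 1) * (N * R) := by
    refine hlow2.trans (hle.trans (add_le_add ?_ ?_))
    · exact mul_le_mul_of_nonneg_left hz1 (by positivity)
    · exact mul_le_mul_of_nonneg_left hg1 (by positivity)
  have hRκ : R / κ = q0 / 2 := by
    rw [hκdef]; field_simp
  have hR2 : R = κ * (q0 / 2) := by rw [← hRκ]; field_simp
  have h3 : N * q0 ≤ N * (q0 / 2) + Real.sqrt (N * k) * κ ^ (p - 1) * R := by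
    have h4 : N * (N * q0) ≤ N * (N * (q0 / 2) + Real.sqrt (N * k) * κ ^ (p - 1) * R) := by
      calc N * (N * q0) ≤ (N / κ) * (N * R) + Real.sqrt (N * k) * κ ^ (p - 1) * (N * R) := hmain
        _ = N * (N * (R / κ) + Real.sqrt (N * k) * κ ^ (p - 1) * R) := by ring
        _ = _ := by rw [hRκ]
    exact le_of_mul_le_mul_left h4 hN
  have h5 : N ≤ Real.sqrt (N * k) * κ ^ p := by
    have h6 : κ ^ p = κ ^ (p - 1) * κ := by
      rw [← Real.rpow_add_one hκ.ne']; congr 1; ring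
    have h7 : N * (q0 / 2) ≤ (Real.sqrt (N * k) * κ ^ p) * (q0 / 2) := by
      rw [h6]
      calc N * (q0 / 2) ≤ Real.sqrt (N * k) * κ ^ (p - 1) * R := by linarith
        _ = _ := by nth_rewrite 1 [hR2]; ring
    exact le_of_mul_le_mul_right h7 (by linarith)
  have h8 : N ^ 2 ≤ N * k * (κ ^ p) ^ 2 := by
    have h9 : N ^ 2 ≤ (Real.sqrt (N * k) * κ ^ p) ^ 2 := pow_le_pow_left₀ hN.le h5 2
    rwa [mul_pow, Real.sq_sqrt (by positivity)] at h9
  have h10 : N ≤ k * (κ ^ p) ^ 2 := by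
    have h11 : N * N ≤ N * (k * (κ ^ p) ^ 2) := by nlinarith [h8]
    exact le_of_mul_le_mul_left h11 hN
  have hκ2 : κ = 4 * D ^ p / (2 - D) := by
    rw [hκdef, hR, hq0, Real.mul_rpow (by linarith) (by norm_num)]
    have h12 : (4:ℝ) ^ p = (4:ℝ) ^ (p - 1) * 4 := by
      rw [← Real.rpow_add_one (by norm_num)]; congr 1; ring
    have h13 : (0:ℝ) < (4:ℝ) ^ (p - 1) := Real.rpow_pos_of_pos (by norm_num) _
    have h14 : (2 - D) ≠ 0 := (sub_pos.2 hD2).ne'
    have h15 : (4 - 2 * D) ≠ 0 := by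
      intro h; apply h14; linarith
    rw [h12]
    field_simp
    ring
  have h16 : (κ ^ p) ^ 2 = κ ^ (2 * p) := by
    rw [← Real.rpow_natCast, ← Real.rpow_mul hκ.le]
    congr 1; push_cast; ring
  rw [h16, hκ2] at h10
  exact h10

end
end Q142LX
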