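import Mathlib
set_option autoImplicit false
open Finset
namespace Q142LX

/-- the Sylvester sign matrix on `Fin r → Bool`; `true` stands for the sign `+` -/
def hsign : Bool → Bool → ℝ := fun a b => if a && b then -1 else 1

noncomputable def HH (r : ℕ) (i j : Fin r → Bool) : ℝ := ∏ t, hsign (i t) (j t)

lemma hsign_cases (a b : Bool) : hsign a b = 1 ∨ hsign a b = -1 := by
  unfold hsign; split_ifs <;> simp

lemma HH_cases (r : ℕ) (i j : Fin r → Bool) : HH r i j = 1 ∨ HH r i j = -1 := by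
  unfold HH
  refine Finset.prod_induction _ (fun x : ℝ => x = 1 ∨ x = -1) ?_ (Or.inl rfl)
    fun t _ => hsign_cases _ _
  rintro a b (rfl | rfl) (rfl | rfl) <;> norm_num

lemma HH_orth (r : ℕ) (i l : Fin r → Bool) :
    ∑ j, HH r i j * HH r l j = if i = l then (2 : ℝ) ^ r else 0 := by
  have h1 : ∀ j : Fin r → Bool, HH r i j * HH r l j =
      ∏ t, (hsign (i t) (j t) * hsign (l t) (j t)) := by
    intro j; unfold HH; rw [Finset.prod_mul_distrib]
  have h2 : ∑ j : Fin r → Bool, ∏ t, (hsign (i t) (j t) * hsign (l t) (j t)) =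
      ∏ t : Fin r, ∑ b : Bool, (hsign (i t) b * hsign (l t) b) := by
    rw [Finset.prod_univ_sum, Fintype.piFinset_univ]
  simp_rw [h1]
  rw [h2]
  have h3 : ∀ t : Fin r, ∑ b : Bool, (hsign (i t) b * hsign (l t) b) =
      if i t = l t then 2 else 0 := by
    intro t
    rw [Fintype.sum_bool]
    unfold hsign
    cases i t <;> cases l t <;> norm_num
  simp_rw [h3]
  by_cases h : i = l
  · subst h; simp
  · rw [if_neg h]
    obtain ⟨t, ht⟩ := Function.ne_iff.1 h
    exact Finset.prod_eq_zero (Finset.mem_univ t) (if_neg ht)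

section
variable {V : Type} [Fintype V] [DecidableEq V] (H : V → V → ℝ) {N : ℝ}
  (horth : ∀ i l, ∑ j, H i j * H l j = if i = l then N else 0)

include horth in
/-- Parseval for the rows. -/
lemma parseval (e : V → ℝ) : ∑ j, (∑ i, H i j * e i) ^ 2 = N * ∑ i, e i ^ 2 := by
  calc ∑ j, (∑ i, H i j * e i) ^ 2
      = ∑ j, ∑ i, ∑ l, (e i * e l) * (H i j * H l j) := by
        refine Finset.sum_congr rfl fun j _ => ?_
        rw [sq, Finset.sum_mul_sum]
        refine Finset.sum_congr rfl fun i _ => Finset.sum_congr rfl fun l _ => ?_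
        ring
    _ = ∑ i, ∑ l, (e i * e l) * ∑ j, H i j * H l j := by
        rw [Finset.sum_comm]
        refine Finset.sum_congr rfl fun i _ => ?_
        rw [Finset.sum_comm]
        refine Finset.sum_congr rfl fun l _ => ?_
        rw [Finset.mul_sum]
    _ = N * ∑ i, e i ^ 2 := by
        simp_rw [horth]
        rw [Finset.mul_sum]
        refine Finset.sum_congr rfl fun i _ => ?_
        simp [sq]; ring

include horth in
/-- A matrix whose columns lie in a space of dimension `≤ k` correlates badly with `H`. -/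
lemma rank_ineq {X : Type} [AddCommGroup X] [Module ℝ X] [FiniteDimensional ℝ X] (hN : 0 ≤ N)
    (L : X →ₗ[ℝ] (V → ℝ)) (g : V → X) :
    (∑ i, ∑ j, H i j * L (g j) i) ^ 2 ≤
      N * (Module.finrank ℝ X : ℝ) * ∑ i, ∑ j, (L (g j) i) ^ 2 := by
  set E := EuclideanSpace ℝ V
  let L' : X →ₗ[ℝ] E := (WithLp.linearEquiv 2 ℝ (V → ℝ)).symm.toLinearMap ∘ₗ L
  have hL' : ∀ x i, (L' x) i = L x i := fun x i => rfl
  set W : Submodule ℝ E := LinearMap.range L' with hW
  let e := stdOrthonormalBasis ℝ W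
  let hc : V → E := fun j => WithLp.toLp 2 (fun i => H i j)
  have hmem : ∀ j, L' (g j) ∈ W := fun j => ⟨g j, rfl⟩
  have hexp : ∀ j, inner ℝ (hc j) (L' (g j)) =
      ∑ l, inner ℝ (hc j) (e l : E) * inner ℝ (e l : E) (L' (g j)) := by
    intro j
    have h1 := e.sum_repr' ⟨L' (g j), hmem j⟩
    have h2 : L' (g j) = ∑ l, (inner ℝ (e l : E) (L' (g j))) • (e l : E) := by
      have := congrArg (fun w : W => (w : E)) h1
      simp only [Submodule.coe_sum, Submodule.coe_smul, Submodule.coe_inner] at this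
      exact this.symm
    conv_lhs => rw [h2]
    rw [inner_sum]
    refine Finset.sum_congr rfl fun l _ => ?_
    rw [inner_smul_right]; ring
  have hnorm : ∀ j, ∑ l, (inner ℝ (e l : E) (L' (g j))) ^ 2 = ∑ i, (L (g j) i) ^ 2 := by
    intro j
    have h1 := e.sum_sq_norm_inner_right ⟨L' (g j), hmem j⟩
    have h2 : ‖(⟨L' (g j), hmem j⟩ : W)‖ ^ 2 = ∑ i, (L (g j) i) ^ 2 := by
      rw [Submodule.coe_norm, EuclideanSpace.norm_sq_eq]
      refine Finset.sum_congr rfl fun i _ => ?_
      rw [hL', Real.norm_eq_abs, sq_abs]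
    rw [← h2, ← h1]
    refine Finset.sum_congr rfl fun l _ => ?_
    rw [Real.norm_eq_abs, sq_abs, Submodule.coe_inner]
  have hinner : ∀ (j : V) (w : E), inner ℝ (hc j) w = ∑ i, H i j * w i := by
    intro j w
    rw [PiLp.inner_apply]
    refine Finset.sum_congr rfl fun i _ => ?_
    simp [hc, mul_comm]
  have hpar : ∀ l, ∑ j, (inner ℝ (hc j) (e l : E)) ^ 2 = N := by
    intro l
    have h1 : ∑ j, (inner ℝ (hc j) (e l : E)) ^ 2 = N * ∑ i, ((e l : E) i) ^ 2 := by
      rw [← parseval H horth]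
      refine Finset.sum_congr rfl fun j _ => ?_
      rw [hinner]
    have h2 : ∑ i, ((e l : E) i) ^ 2 = 1 := by
      have h3 : ‖(e l : E)‖ = 1 := by
        have := e.orthonormal.1 l
        rwa [Submodule.coe_norm] at this
      have h4 := EuclideanSpace.norm_sq_eq (e l : E)
      rw [h3] at h4
      rw [show (1:ℝ) = 1 ^ 2 by norm_num, h4]
      refine Finset.sum_congr rfl fun i _ => ?_
      rw [Real.norm_eq_abs, sq_abs]
    rw [h1, h2, mul_one]
  have hsum : ∑ i, ∑ j, H i j * L (g j) i =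
      ∑ x : V × Fin (Module.finrank ℝ W), inner ℝ (hc x.1) (e x.2 : E) *
        inner ℝ (e x.2 : E) (L' (g x.1)) := by
    rw [Finset.sum_comm, Fintype.sum_prod_type]
    refine Finset.sum_congr rfl fun j _ => ?_
    rw [← hexp j, hinner]
    rfl
  rw [hsum]
  refine (Finset.sum_mul_sq_le_sq_mul_sq _ _ _).trans ?_
  have h1 : ∑ x : V × Fin (Module.finrank ℝ W), (inner ℝ (hc x.1) (e x.2 : E)) ^ 2 =
      (Module.finrank ℝ W : ℝ) * N := by
    rw [Fintype.sum_prod_type, Finset.sum_comm]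
    simp [hpar]
  have h2 : ∑ x : V × Fin (Module.finrank ℝ W), (inner ℝ (e x.2 : E) (L' (g x.1))) ^ 2 =
      ∑ i, ∑ j, (L (g j) i) ^ 2 := by
    rw [Fintype.sum_prod_type]
    simp only
    rw [Finset.sum_comm (s := Finset.univ (α := V)) (t := Finset.univ (α := V))
      (f := fun i j => (L (g j) i) ^ 2)]
    exact Finset.sum_congr rfl fun j _ => hnorm j
  rw [h1, h2]
  have h3 : (Module.finrank ℝ W : ℝ) ≤ Module.finrank ℝ X := by
    exact_mod_cast LinearMap.finrank_range_le L'
  have h4 : 0 ≤ ∑ i, ∑ j, (L (g j) i) ^ 2 :=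
    Finset.sum_nonneg fun i _ => Finset.sum_nonneg fun j _ => sq_nonneg _
  calc (Module.finrank ℝ W : ℝ) * N * ∑ i, ∑ j, (L (g j) i) ^ 2
      ≤ (Module.finrank ℝ X : ℝ) * N * ∑ i, ∑ j, (L (g j) i) ^ 2 := by gcongr
    _ = _ := by ring

end
end Q142LX
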