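import Pool.Agent.Q142.LX.Ana
set_option autoImplicit false
open Finset
namespace Q142LX

section
variable {V : Type} [DecidableEq V]

/-- distances inside one side -/
def dsame (x y : V × Bool) : ℝ := if x.1 = y.1 then (if x.2 = y.2 then 0 else 4) else 2

/-- distances between the two sides -/
def dcross (h : V → V → Bool) (x y : V × Bool) : ℝ := if (x.2 == y.2) = h x.1 y.1 then 1 else 3

/-- the distance of the double cover of a sign matrix -/
def dd (h : V → V → Bool) : (V × Bool) ⊕ (V × Bool) → (V × Bool) ⊕ (V × Bool) → ℝ
  | .inl x, .inl y => dsame x y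
  | .inr x, .inr y => dsame x y
  | .inl x, .inr y => dcross h x y
  | .inr y, .inl x => dcross h x y

lemma dsame_comm (x y : V × Bool) : dsame x y = dsame y x := by
  unfold dsame; simp only [eq_comm]

lemma dsame_self (x : V × Bool) : dsame x x = 0 := by simp [dsame]

lemma dsame_eq {x y : V × Bool} (h : dsame x y = 0) : x = y := by
  unfold dsame at h
  split_ifs at h with h1 h2
  · exact Prod.ext h1 h2
  · norm_num at h
  · norm_num at h

lemma dcross_pos (h : V → V → Bool) (x y : V × Bool) : 1 ≤ dcross h x y := by
  unfold dcross; split_ifs <;> norm_num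

lemma dcross_le (h : V → V → Bool) (x y : V × Bool) : dcross h x y ≤ 3 := by
  unfold dcross; split_ifs <;> norm_num

lemma tri_same (x y z : V × Bool) : dsame x z ≤ dsame x y + dsame y z := by
  obtain ⟨i, s⟩ := x
  obtain ⟨j, t⟩ := y
  obtain ⟨l, u⟩ := z
  simp only [dsame]
  by_cases h1 : i = j <;> by_cases h2 : j = l
  · subst h1; subst h2
    cases s <;> cases t <;> cases u <;> norm_num
  · subst h1
    cases s <;> cases t <;> simp [h2]
  · subst h2
    cases t <;> cases u <;> simp [h1]
  · simp only [if_neg h1, if_neg h2]
    split_ifs <;> norm_num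

lemma cross_sum (h : V → V → Bool) (i : V) (s t : Bool) (hst : s ≠ t) (y : V × Bool) :
    dcross h (i, s) y + dcross h (i, t) y = 4 := by
  obtain ⟨j, u⟩ := y
  simp only [dcross]
  cases hh : h i j <;> cases s <;> cases t <;> cases u <;> simp at hst ⊢ <;> norm_num

lemma cross_sum' (h : V → V → Bool) (x : V × Bool) (j : V) (s t : Bool) (hst : s ≠ t) :
    dcross h x (j, s) + dcross h x (j, t) = 4 := by
  obtain ⟨i, u⟩ := x
  simp only [dcross]
  cases hh : h i j <;> cases s <;> cases t <;> cases u <;> simp at hst ⊢ <;> norm_num

/-- `inl x, inl y` through `inr z` and the other mixed case -/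
lemma tri_l (h : V → V → Bool) (x y z : V × Bool) :
    dsame x y ≤ dcross h x z + dcross h y z ∧ dcross h x z ≤ dsame x y + dcross h y z := by
  obtain ⟨i, s⟩ := x
  obtain ⟨l, t⟩ := y
  by_cases h1 : i = l
  · subst h1
    by_cases h2 : s = t
    · subst h2
      rw [dsame_self]
      have := dcross_pos h (i, s) z
      constructor <;> linarith
    · have h3 := cross_sum h i s t h2 z
      have h4 : dsame (i, s) (i, t) = 4 := by simp [dsame, h2]
      have h5 := dcross_pos h (i, s) z
      have h6 := dcross_pos h (i, t) z
      rw [h4]
      constructor <;> linarith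
  · have h4 : dsame (i, s) (l, t) = 2 := by simp [dsame, h1]
    have h5 := dcross_pos h (i, s) z
    have h6 := dcross_pos h (l, t) z
    have h7 := dcross_le h (i, s) z
    rw [h4]
    constructor <;> linarith

lemma tri_r (h : V → V → Bool) (x y z : V × Bool) :
    dsame x y ≤ dcross h z x + dcross h z y ∧ dcross h z x ≤ dsame x y + dcross h z y := by
  obtain ⟨i, s⟩ := x
  obtain ⟨l, t⟩ := y
  by_cases h1 : i = l
  · subst h1
    by_cases h2 : s = t
    · subst h2
      rw [dsame_self]
      have := dcross_pos h z (i, s)
      constructor <;> linarith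
    · have h3 := cross_sum' h z i s t h2
      have h4 : dsame (i, s) (i, t) = 4 := by simp [dsame, h2]
      have h5 := dcross_pos h z (i, s)
      have h6 := dcross_pos h z (i, t)
      rw [h4]
      constructor <;> linarith
  · have h4 : dsame (i, s) (l, t) = 2 := by simp [dsame, h1]
    have h5 := dcross_pos h z (i, s)
    have h6 := dcross_pos h z (l, t)
    have h7 := dcross_le h z (i, s)
    rw [h4]
    constructor <;> linarith

/-- the metric space of a sign matrix -/
noncomputable def met (h : V → V → Bool) : MetricSpace ((V × Bool) ⊕ (V × Bool)) where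
  dist := dd h
  dist_self := by
    rintro (x | x) <;> exact dsame_self x
  dist_comm := by
    rintro (x | x) (y | y)
    · exact dsame_comm x y
    · rfl
    · rfl
    · exact dsame_comm x y
  dist_triangle := by
    rintro (x | x) (y | y) (z | z)
    · exact tri_same x y z
    · exact (tri_l h x y z).2
    · exact (tri_l h x z y).1
    · change dcross h x z ≤ dcross h x y + dsame y z
      have := (tri_r h z y x).2
      rw [dsame_comm z y] at this
      linarith
    · change dcross h z x ≤ dcross h y x + dsame y z
      have := (tri_l h z y x).2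
      rw [dsame_comm z y] at this
      linarith
    · exact (tri_r h x z y).1
    · exact (tri_r h x y z).2
    · exact tri_same x y z
  eq_of_dist_eq_zero := by
    rintro (x | x) (y | y) hxy
    · exact congrArg _ (dsame_eq hxy)
    · have h1 := dcross_pos h x y
      have h2 : dcross h x y = 0 := hxy
      linarith
    · have h1 := dcross_pos h y x
      have h2 : dcross h y x = 0 := hxy
      linarith
    · exact congrArg _ (dsame_eq hxy)

end

section
variable {X : Type} [NormedAddCommGroup X] [NormedSpace ℝ X] [FiniteDimensional ℝ X]

open Classical in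
/-- the sign matrix with Boolean entries -/
noncomputable def hb (r : ℕ) (i j : Fin r → Bool) : Bool := decide (HH r i j = 1)

theorem lower {p D : ℝ} (hp : 2 ≤ p) (hD1 : 1 ≤ D) (hD2 : D < 2) (r : ℕ)
    (f : ((Fin r → Bool) × Bool) ⊕ ((Fin r → Bool) × Bool) → ℕ → X)
    (hs : ∀ x, Summable fun m => ‖f x m‖ ^ p)
    (h1 : ∀ x y, dd (hb r) x y ≤ nn p (fun m => f x m - f y m))
    (h2 : ∀ x y, nn p (fun m => f x m - f y m) ≤ D * dd (hb r) x y) :
    ((2 : ℝ) ^ r) ≤ Module.finrank ℝ X * (4 * D ^ p / (2 - D)) ^ (2 * p) := by
  have hcard : (Fintype.card (Fin r → Bool) : ℝ) = 2 ^ r := by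
    rw [Fintype.card_fun, Fintype.card_bool, Fintype.card_fin]; push_cast; rfl
  have key := core (V := Fin r → Bool) (X := X) (HH r) (HH_cases r)
    (by intro i l; rw [HH_orth, hcard]) hp hD1 hD2
    (fun i => f (.inl (i, true))) (fun i => f (.inl (i, false)))
    (fun j => f (.inr (j, true))) (fun j => f (.inr (j, false)))
    (fun i => hs _) (fun i => hs _) (fun i => hs _) (fun i => hs _)
    (fun i => by
      have := h1 (.inl (i, true)) (.inl (i, false))
      simpa [dd, dsame] using this)
    (fun i => by
      have := h2 (.inl (i, true)) (.inl (i, false))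
      simpa [dd, dsame] using this)
    (fun i => by
      have := h2 (.inr (i, true)) (.inr (i, false))
      simpa [dd, dsame] using this)
    (fun i j hij => by
      have hb1 : hb r i j = true := by simp [hb, hij]
      have e1 := h2 (.inl (i, true)) (.inr (j, true))
      have e2 := h2 (.inr (j, false)) (.inl (i, false))
      simp only [dd, dcross, hb1] at e1 e2
      exact ⟨by simpa using e1, by simpa using e2⟩)
    (fun i j hij => by
      have hb1 : hb r i j = false := by
        have : HH r i j ≠ 1 := by rw [hij]; norm_num
        simp [hb, this]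
      have e1 := h2 (.inl (i, true)) (.inr (j, false))
      have e2 := h2 (.inr (j, true)) (.inl (i, false))
      simp only [dd, dcross, hb1] at e1 e2
      exact ⟨by simpa using e1, by simpa using e2⟩)
  rwa [hcard] at key

end
end Q142LX
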